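import Mathlib
import Pool.Graph.R_seed8.Results.MP_4aec10_nt.GrowingDegreeTranslates
import Pool.Agent.H27.DT.A

/-!
# Translates of arbitrary sequences of points of the Lie algebra of `(E × G_m)^k` by the logarithms of the integers formed by
the first `N` digits of almost all real numbers: relations of growing degree

Let `E` be the elliptic curve `y² = 4 x³ - g₂ x - g₃` with rational `g₂`, `g₃`, `Λ` its lattice and `G = (E × G_m)^k`. Let
`r_N = (z_N, s_N)` be ANY sequence of points of `Lie G_ℂ`, `w_N` any sequence of `q`-tuples of complex numbers (for instance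
the periods of `G`), and let `t_N ≥ β ^ N`, `β > 1`, be any sequence of real numbers, for instance `t_N = 10 ^ N`: then
`⌊t_N α⌋` is the integer formed by the digits of `α` up to the `N`-th digit after the decimal point. For almost all real
points `α = (α_1, …, α_k)` the following is true for ALL large `N` and all `r = (u, t)` in `r_N + log_G(P)`, `P` a point of
`G` with the coordinates `((⌊t_N α_i⌋, y_i), ⌊t_N α_i⌋)`: every polynomial relation of degree at most `δ = N ^ c`, over a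
number field of degree at most `δ`, between `w_N`, the components `u_i`, `t_i` of `r`, the numbers `ζ(u_i)` and the
components `℘(u_i)`, `℘'(u_i)`, `exp(t_i)` of `exp_G(r)` is an identity in the numbers `u_i`, `ζ(u_i)`, `t_i`.

Proof. The library (`Pool.Agent.R351.GD.tupE_exp`) bounds the number of the exceptional tuples of integers, with the
dependence on the degree. New (helper27, `Pool/Agent/H27/DT/A.lean`): the measure of the `α` with `⌊t_N α⌋` in the
exceptional set and the lemma of Borel and Cantelli, uniformly in the growing degree.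
-/

set_option autoImplicit false

open scoped PeriodPair
open MeasureTheory Filter

namespace Pool.Agent.Results.MP_4aec10_nt.DigitTranslates

open Pool.Agent.Results.MP_4aec10_nt.GrowingDegreeTranslates (IsTranslate FreeOverImage)

lemma aint (T : ℕ) (v : ℤ) (hv : |v| ≤ T) : Pool.Agent.Y916.Sl.AInt 1 T (v : ℂ) := by
  refine ⟨Polynomial.X - Polynomial.C v, Polynomial.monic_X_sub_C v, Polynomial.natDegree_X_sub_C v, by simp, ?_⟩
  intro z hz
  have h1 : z = (v : ℂ) := by
    simpa [sub_eq_zero] using hz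
  rw [h1, Complex.norm_intCast]
  exact_mod_cast hv

/-- Let `Λ` be a lattice with rational invariants and `β > 1`. There is `c > 0` such that for every sequence `t_N ≥ β ^ N`,
all sequences of constants `w_N` and of points `(z_N, s_N)` and almost every real point `α`: for all large `N` all translates
of `(z_N, s_N)` by logarithms of the points with the coordinates `((⌊t_N α_i⌋, y_i), ⌊t_N α_i⌋)` are free over their image
and `w_N`, for relations of degree at most `N ^ c` over number fields of degree at most `N ^ c`. -/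
theorem result (Λ : PeriodPair) (a b : ℚ) (ha : Λ.g₂ = a) (hb : Λ.g₃ = b) (k q : ℕ) (β : ℝ) (hβ : 1 < β) :
    ∃ c : ℝ, 0 < c ∧ ∀ t : ℕ → ℝ, (∀ N, β ^ N ≤ t N) → ∀ (w : ℕ → Fin q → ℂ) (z s : ℕ → Fin k → ℂ),
      ∀ᵐ α : Fin k → ℝ, ∀ᶠ N : ℕ in atTop, ∀ u v : Fin k → ℂ,
        IsTranslate Λ (z N) (s N) (fun i => ((⌊t N * α i⌋ : ℤ) : ℂ)) u v →
        FreeOverImage Λ ⌊(N : ℝ) ^ c⌋₊ (w N) u v := by
  obtain ⟨C, h⟩ := Pool.Agent.R351.GD.tupE_exp Λ a b ha hb k q 1 le_rfl
  obtain ⟨c, hc⟩ : ∃ c : ℝ, c = 1 / (2 * ((C : ℝ) + 1)) := ⟨_, rfl⟩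
  have hC0 : (0 : ℝ) ≤ C := Nat.cast_nonneg C
  have hc0 : 0 < c := by rw [hc]; positivity
  have hcC : c * C ≤ 1 / 2 := by
    rw [hc, div_mul_eq_mul_div, one_mul, div_le_div_iff₀ (by positivity) (by norm_num)]
    linarith
  refine ⟨c, hc0, fun t ht w z s => ?_⟩
  have key := Pool.Agent.H27.DT.bc (k := k)
    (fun n => {x : Fin k → ℤ | ¬ ∀ u v : Fin k → ℂ, IsTranslate Λ (z n) (s n) (fun i => ((x i : ℤ) : ℂ)) u v →
        FreeOverImage Λ ⌊(n : ℝ) ^ c⌋₊ (w n) u v}) t β hβ ht (C : ℝ)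
    (1 / 3 ^ C) (by positivity) (by positivity) (fun n hn T hT => ?_)
  · filter_upwards [key] with α hα
    filter_upwards [hα] with n hn
    simpa only [Set.mem_ofPred_eq, not_not] using hn
  · obtain ⟨δ, hδ⟩ : ∃ δ : ℕ, δ = ⌊(n : ℝ) ^ c⌋₊ := ⟨_, rfl⟩
    rw [← hδ]
    obtain ⟨hf, hle⟩ := h δ (w n) (z n) (s n) T hT
    have hT0 : (0 : ℝ) < T := by exact_mod_cast hT
    have hT1 : (1 : ℝ) ≤ T := by exact_mod_cast hT
    have hn1 : (1 : ℝ) ≤ n := by exact_mod_cast hn
    have hn0 : (0 : ℝ) < n := by linarith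
    have hsub : (fun (x : Fin k → ℤ) (i : Fin k) => (x i : ℂ)) ''
        {x : Fin k → ℤ | (∀ i, |x i| ≤ (T : ℤ)) ∧ x ∈ {x : Fin k → ℤ | ¬ ∀ u v : Fin k → ℂ,
          IsTranslate Λ (z n) (s n) (fun i => ((x i : ℤ) : ℂ)) u v → FreeOverImage Λ δ (w n) u v}} ⊆
        {α : Fin k → ℂ | (∀ i, Pool.Agent.Y916.Sl.AInt 1 T (α i)) ∧
          Pool.Agent.Y916.Sch.BadE Λ δ δ (w n) (z n) (s n) α} := by
      rintro _ ⟨x, ⟨hx1, hx2⟩, rfl⟩
      refine ⟨fun i => aint T (x i) (hx1 i), ?_⟩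
      simp only [Set.mem_ofPred_eq, not_forall] at hx2
      obtain ⟨u, v, huv, hF⟩ := hx2
      exact ⟨u, v, fun i => (huv i).1, fun i => (huv i).2.1, fun i => (huv i).2.2.1, fun i => (huv i).2.2.2, hF⟩
    have hinj : Function.Injective (fun (x : Fin k → ℤ) (i : Fin k) => (x i : ℂ)) := by
      intro x y hxy
      funext i
      exact Int.cast_injective (congrFun hxy i)
    have h2 := Set.ncard_le_ncard hsub hf
    rw [Set.ncard_image_of_injective _ hinj] at h2
    have hMm : Pool.Agent.Y916.Sl.Mm 1 = 1 := by simp [Pool.Agent.Y916.Sl.Mm]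
    rw [hMm, mul_one] at hle
    have h4 : ((δ : ℝ) + 2) ^ C ≤ 3 ^ C * √(n : ℝ) := by
      have e1 : (1 : ℝ) ≤ (n : ℝ) ^ c := Real.one_le_rpow hn1 hc0.le
      have e2 : (δ : ℝ) ≤ (n : ℝ) ^ c := by rw [hδ]; exact Nat.floor_le (by positivity)
      calc ((δ : ℝ) + 2) ^ C ≤ (3 * (n : ℝ) ^ c) ^ C := pow_le_pow_left₀ (by positivity) (by linarith) C
        _ = 3 ^ C * (n : ℝ) ^ (c * C) := by rw [mul_pow, ← Real.rpow_natCast ((n : ℝ) ^ c), ← Real.rpow_mul hn0.le]
        _ ≤ 3 ^ C * (n : ℝ) ^ (1 / 2 : ℝ) := by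
            gcongr
        _ = 3 ^ C * √(n : ℝ) := by rw [Real.sqrt_eq_rpow]
    have h5 : 1 / 3 ^ C / √(n : ℝ) ≤ 1 / ((δ : ℝ) + 2) ^ C := by
      rw [div_div]
      exact one_div_le_one_div_of_le (by positivity) h4
    calc _ ≤ (({α : Fin k → ℂ | (∀ i, Pool.Agent.Y916.Sl.AInt 1 T (α i)) ∧
          Pool.Agent.Y916.Sch.BadE Λ δ δ (w n) (z n) (s n) α}.ncard : ℕ) : ℝ) := by exact_mod_cast h2
      _ ≤ C * (T : ℝ) ^ ((k : ℝ) - 1 / ((δ : ℝ) + 2) ^ C) := hle
      _ = C * (T : ℝ) ^ k * (T : ℝ) ^ (-(1 / ((δ : ℝ) + 2) ^ C)) := by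
          rw [sub_eq_add_neg, Real.rpow_add hT0, Real.rpow_natCast, mul_assoc]
      _ ≤ C * (T : ℝ) ^ k * (T : ℝ) ^ (-(1 / 3 ^ C / √(n : ℝ))) := by
          gcongr

end Pool.Agent.Results.MP_4aec10_nt.DigitTranslates
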